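import Pool.Agent.W32.MM.Arc
import Pool.Agent.H165R3.BPE

/-!
# MP_9ee088_an, part ORB: from near independence of invariant sets to orbit discrepancy
-/

open MeasureTheory Filter Topology

namespace Pool.Agent.W32.MM

open Pool.Agent.W564.MM

lemma inst_prob : IsProbabilityMeasure (volume : Measure (T1 × T1)) := by
  have : IsProbabilityMeasure (volume : Measure T1) := ⟨UnitAddCircle.measure_univ⟩
  infer_instance

/-- frequency of visits -/
noncomputable def freq (F : T1 × T1 → T1 × T1) (B : Set (T1 × T1)) (n : ℕ) (p : T1 × T1) : ℝ :=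
  (Set.ncard {j | j < n ∧ F^[j] p ∈ B} : ℝ) / n

lemma freq_eq (F : T1 × T1 → T1 × T1) (B : Set (T1 × T1)) (n : ℕ) (p : T1 × T1) :
    freq F B n p = (n : ℝ)⁻¹ * ∑ k ∈ Finset.range n, B.indicator (fun _ => (1:ℝ)) (F^[k] p) := by
  classical
  unfold freq
  have h : {j | j < n ∧ F^[j] p ∈ B} = ((Finset.range n).filter (fun j => F^[j] p ∈ B) : Finset ℕ) := by
    ext j; simp
  rw [h, Set.ncard_coe_finset, Finset.card_filter]
  push_cast
  rw [div_eq_inv_mul]
  rfl

lemma freq_mono (F : T1 × T1 → T1 × T1) (B B' : Set (T1 × T1)) (h : B ⊆ B') (n : ℕ) (p : T1 × T1) :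
    freq F B n p ≤ freq F B' n p := by
  rw [freq_eq, freq_eq]
  apply mul_le_mul_of_nonneg_left _ (by positivity)
  apply Finset.sum_le_sum
  intro k _
  exact Set.indicator_le_indicator_of_subset h (fun _ => zero_le_one) _

/-- the one-box estimate -/
lemma box (F : T1 × T1 → T1 × T1) (hF : MeasurePreserving F volume volume)
    (B : Set (T1 × T1)) (hB : MeasurableSet B) (ε1 η : ℝ) (hη : 0 < η)
    (hinv : ∀ A : Set (T1 × T1), MeasurableSet A → F ⁻¹' A = A →
      |volume.real (A ∩ B) - volume.real A * volume.real B| ≤ ε1) :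
    ∃ E : Set (T1 × T1), MeasurableSet E ∧ volume.real E ≤ 2 * ε1 / η ∧
      ∀ p ∉ E, ∀ᶠ n : ℕ in atTop, |freq F B n p - volume.real B| ≤ 2 * η := by
  have := inst_prob
  set f : T1 × T1 → ℝ := B.indicator (fun _ => (1:ℝ)) with hf
  have hfm : Measurable f := measurable_const.indicator hB
  have hfb : ∀ x, |f x| ≤ 1 := by
    intro x
    rw [hf]
    by_cases hx : x ∈ B
    · rw [Set.indicator_of_mem hx]; simp
    · rw [Set.indicator_of_notMem hx]; simp
  have hbk := Pool.Agent.H165R3.BPE.birkhoff hF f hfm 1 hfb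
  set h : T1 × T1 → ℝ := (volume : Measure (T1 × T1))[f | MeasurableSpace.invariants F] with hh
  have hle := MeasurableSpace.invariants_le F
  have hsm : StronglyMeasurable[MeasurableSpace.invariants F] h := stronglyMeasurable_condExp
  have hfi : Integrable f (volume : Measure (T1 × T1)) :=
    (integrable_const (1:ℝ)).indicator hB
  have hhi : Integrable h (volume : Measure (T1 × T1)) := integrable_condExp
  set v : ℝ := volume.real B with hv
  have hA1 : MeasurableSet[MeasurableSpace.invariants F] {x | v + η < h x} :=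
    measurableSet_lt measurable_const hsm.measurable
  have hA2 : MeasurableSet[MeasurableSpace.invariants F] {x | h x < v - η} :=
    measurableSet_lt hsm.measurable measurable_const
  have key : ∀ A : Set (T1 × T1), MeasurableSet[MeasurableSpace.invariants F] A →
      ∫ x in A, h x = volume.real (A ∩ B) := by
    intro A hA
    rw [hh, setIntegral_condExp hle hfi hA, hf, setIntegral_indicator hB]
    simp
  have inv : ∀ A : Set (T1 × T1), MeasurableSet[MeasurableSpace.invariants F] A →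
      |volume.real (A ∩ B) - volume.real A * v| ≤ ε1 := by
    intro A hA
    rw [MeasurableSpace.measurableSet_invariants] at hA
    exact hinv A hA.1 hA.2
  have e1 : volume.real {x | v + η < h x} * η ≤ ε1 := by
    have k1 := key _ hA1
    have k2 := inv _ hA1
    have k3 : ∫ x in {x | v + η < h x}, (v + η) ≤ ∫ x in {x | v + η < h x}, h x := by
      apply setIntegral_mono_on (integrable_const _).integrableOn hhi.integrableOn (hle _ hA1)
      intro x hx
      exact le_of_lt hx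
    rw [k1, setIntegral_const, smul_eq_mul] at k3
    have := (abs_le.1 k2).2
    nlinarith
  have e2 : volume.real {x | h x < v - η} * η ≤ ε1 := by
    have k1 := key _ hA2
    have k2 := inv _ hA2
    have k3 : ∫ x in {x | h x < v - η}, h x ≤ ∫ x in {x | h x < v - η}, (v - η) := by
      apply setIntegral_mono_on hhi.integrableOn (integrable_const _).integrableOn (hle _ hA2)
      intro x hx
      exact le_of_lt hx
    rw [k1, setIntegral_const, smul_eq_mul] at k3
    have := (abs_le.1 k2).1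
    nlinarith
  set Z : Set (T1 × T1) := toMeasurable volume
    {x | ¬ Tendsto (fun n : ℕ => (n:ℝ)⁻¹ * ∑ k ∈ Finset.range n, f (F^[k] x)) atTop (𝓝 (h x))}
    with hZ
  have hZ0 : volume.real Z = 0 := by
    rw [hZ, measureReal_def, measure_toMeasurable]
    have := ae_iff.1 hbk
    rw [this]; simp
  refine ⟨({x | v + η < h x} ∪ {x | h x < v - η}) ∪ Z,
    ((hle _ hA1).union (hle _ hA2)).union (measurableSet_toMeasurable _ _), ?_, ?_⟩
  · have u1 := measureReal_union_le (μ := (volume : Measure (T1 × T1)))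
      ({x | v + η < h x} ∪ {x | h x < v - η}) Z
    have u2 := measureReal_union_le (μ := (volume : Measure (T1 × T1)))
      {x | v + η < h x} {x | h x < v - η}
    rw [le_div_iff₀ hη]
    nlinarith
  · intro p hp
    simp only [Set.mem_union, not_or] at hp
    obtain ⟨⟨p1, p2⟩, p3⟩ := hp
    have p4 : Tendsto (fun n : ℕ => (n:ℝ)⁻¹ * ∑ k ∈ Finset.range n, f (F^[k] p)) atTop (𝓝 (h p)) := by
      by_contra hc
      exact p3 (subset_toMeasurable _ _ hc)
    have p1 : h p ≤ v + η := not_lt.1 p1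
    have p2 : v - η ≤ h p := not_lt.1 p2
    have p5 := Metric.tendsto_atTop.1 p4 η hη
    obtain ⟨N, hN⟩ := p5
    filter_upwards [eventually_ge_atTop N] with n hn
    have p6 := hN n hn
    rw [freq_eq]
    rw [Real.dist_eq] at p6
    have p7 := abs_lt.1 p6
    rw [abs_le]
    constructor <;> linarith [p7.1, p7.2]

lemma vol_box (s l s' l' : ℝ) (h0 : 0 ≤ l) (h1 : l ≤ 1) (h2 : 0 ≤ l') (h3 : l' ≤ 1) :
    (volume : Measure (T1 × T1)).real (arc s l ×ˢ arc s' l') = l * l' := by
  have : IsProbabilityMeasure (volume : Measure T1) := ⟨UnitAddCircle.measure_univ⟩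
  rw [Measure.volume_eq_prod, measureReal_prod_prod, vol_arc s l h0 h1, vol_arc s' l' h2 h3]

/-- **ORB.** -/
theorem orb (h1 : S_BAS) (h2 : S_INV) : S_ORB := by
  intro ε hε
  have := inst_prob
  obtain ⟨N, hN⟩ := exists_nat_gt (8 / ε)
  have hN0 : (0:ℝ) < N := lt_trans (by positivity) hN
  have hN1 : 1 ≤ N := by exact_mod_cast hN0
  have hNe : 8 ≤ ε * N := by
    rw [div_lt_iff₀ hε] at hN
    nlinarith
  set J := Fin (N+1) × Fin (N+1) × Fin (N+1) × Fin (N+1) with hJ
  have hK : (0:ℝ) < Fintype.card J := by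
    exact_mod_cast Fintype.card_pos
  have hfin : ∀ j : Fin (N+1), 0 ≤ ((j:ℕ):ℝ)/N ∧ ((j:ℕ):ℝ)/N ≤ 1 := by
    intro j
    refine ⟨by positivity, ?_⟩
    rw [div_le_one hN0]
    exact_mod_cast Nat.lt_succ_iff.1 j.2
  set bx : J → Set (T1 × T1) := fun q =>
    arc (((q.1:ℕ):ℝ)/N) (((q.2.1:ℕ):ℝ)/N) ×ˢ arc (((q.2.2.1:ℕ):ℝ)/N) (((q.2.2.2:ℕ):ℝ)/N) with hbx
  have hbm : ∀ q, MeasurableSet (bx q) := fun q =>
    (arc_meas _ _ (hfin _).2).prod (arc_meas _ _ (hfin _).2)
  have hη : (0:ℝ) < ε/4 := by positivity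
  have hε1 : 0 < ε * (ε/4) / (2 * Fintype.card J) := by positivity
  choose a0 ha0 using fun q => h2 (bx q) (hbm q) _ hε1
  refine ⟨∑ q, |a0 q|, fun a ha => ?_⟩
  have haq : ∀ q, a0 q ≤ |a| := fun q => by
    have := Finset.single_le_sum (f := fun q => |a0 q|) (fun i _ => abs_nonneg _) (Finset.mem_univ q)
    exact (le_abs_self _).trans (this.trans ha)
  choose E hE1 hE2 hE3 using fun q => box (SM a) (h1.2.2.2.2.2.1 a) (bx q) (hbm q) _ (ε/4) hη
    (ha0 q a (haq q))
  refine ⟨⋃ q, E q, MeasurableSet.iUnion hE1, ?_, ?_⟩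
  · calc volume.real (⋃ q, E q) ≤ ∑ q, volume.real (E q) := measureReal_iUnion_fintype_le _
      _ ≤ ∑ _q : J, 2 * (ε * (ε/4) / (2 * Fintype.card J)) / (ε/4) :=
        Finset.sum_le_sum (fun q _ => hE2 q)
      _ = ε := by
        rw [Finset.sum_const, Finset.card_univ, nsmul_eq_mul]
        field_simp
  · intro p hp
    have hev : ∀ᶠ n in atTop, ∀ q, |freq (SM a) (bx q) n p - volume.real (bx q)| ≤ 2 * (ε/4) :=
      eventually_all.2 (fun q => hE3 q p (fun h => hp (Set.mem_iUnion.2 ⟨q, h⟩)))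
    filter_upwards [hev] with n hn
    intro s l s' l' hl0 hl1 hl0' hl1'
    obtain ⟨⟨i1, j1, u1, u2⟩, i2, j2, w1, w2⟩ := grid N hN1 s l hl0 hl1
    obtain ⟨⟨i3, j3, u3, u4⟩, i4, j4, w3, w4⟩ := grid N hN1 s' l' hl0' hl1'
    have up := hn (i1, j1, i3, j3)
    have lo := hn (i2, j2, i4, j4)
    simp only [hbx] at up lo
    rw [vol_box _ _ _ _ (hfin _).1 (hfin _).2 (hfin _).1 (hfin _).2] at up lo
    have m1 := freq_mono (SM a) _ _ (Set.prod_mono u1 u3) n p
    have m2 := freq_mono (SM a) _ _ (Set.prod_mono w1 w3) n p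
    change |freq (SM a) (arc s l ×ˢ arc s' l') n p - l * l'| ≤ ε
    have hd : 2 / (N:ℝ) ≤ ε / 4 := by
      rw [div_le_iff₀ hN0]; linarith
    have hd0 : 0 ≤ 2 / (N:ℝ) := by positivity
    have up2 := (abs_le.1 up).2
    have lo2 := (abs_le.1 lo).1
    obtain ⟨x1a, x1b⟩ := hfin j1
    obtain ⟨x2a, x2b⟩ := hfin j2
    obtain ⟨x3a, x3b⟩ := hfin j3
    obtain ⟨x4a, x4b⟩ := hfin j4
    generalize ((j1:ℕ):ℝ)/N = x1 at *
    generalize ((j2:ℕ):ℝ)/N = x2 at *
    generalize ((j3:ℕ):ℝ)/N = x3 at *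
    generalize ((j4:ℕ):ℝ)/N = x4 at *
    generalize 2 / (N:ℝ) = δ at *
    have q1 : x1 * x3 ≤ l * l' + 2 * δ := by
      have e1 : x1 * x3 ≤ (l + δ) * x3 := mul_le_mul_of_nonneg_right u2 x3a
      have e2 : l * x3 ≤ l * (l' + δ) := mul_le_mul_of_nonneg_left u4 hl0
      have e3 : δ * x3 ≤ δ * 1 := mul_le_mul_of_nonneg_left x3b hd0
      have e4 : l * δ ≤ 1 * δ := mul_le_mul_of_nonneg_right hl1 hd0
      nlinarith
    have q2 : l * l' ≤ x2 * x4 + 2 * δ := by
      have e1 : (l - δ) * x4 ≤ x2 * x4 := mul_le_mul_of_nonneg_right w2 x4a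
      have e2 : l * (l' - δ) ≤ l * x4 := mul_le_mul_of_nonneg_left w4 hl0
      have e3 : δ * x4 ≤ δ * 1 := mul_le_mul_of_nonneg_left x4b hd0
      have e4 : l * δ ≤ 1 * δ := mul_le_mul_of_nonneg_right hl1 hd0
      nlinarith
    rw [abs_le]
    constructor <;> linarith

end Pool.Agent.W32.MM
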