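import Pool.Agent.W564.MM.Defs

/-! # MM: arcs -/

set_option autoImplicit false

open MeasureTheory Filter Topology

namespace Pool.Agent.W32.MM

open Pool.Agent.W564.MM

lemma coe_int (m : ℤ) : ((m : ℝ) : T1) = 0 :=
  (AddCircle.coe_eq_zero_iff (1 : ℝ)).2 ⟨m, by simp⟩

lemma arc_shift_le (s l : ℝ) (m : ℤ) : arc (s + m) l ⊆ arc s l := by
  rintro x ⟨y, hy, rfl⟩
  refine ⟨y - m, ⟨by linarith [hy.1], by linarith [hy.2]⟩, ?_⟩
  show ((y - m : ℝ) : T1) = (y : T1)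
  have h1 : ((y - m : ℝ) : T1) = (y : T1) - ((m : ℝ) : T1) := rfl
  rw [h1, coe_int, sub_zero]

lemma arc_shift (s l : ℝ) (m : ℤ) : arc (s + m) l = arc s l := by
  refine le_antisymm (arc_shift_le s l m) ?_
  have h := arc_shift_le (s + m) l (-m)
  push_cast at h
  rw [add_neg_cancel_right] at h
  exact h

lemma mem_arc (s l : ℝ) (hl : l ≤ 1) (x : T1) :
    x ∈ arc s l ↔ ((AddCircle.measurableEquivIco (1 : ℝ) s x : Set.Ico s (s + 1)) : ℝ) < s + l := by
  have hx : ((((AddCircle.measurableEquivIco (1 : ℝ) s x : Set.Ico s (s + 1)) : ℝ)) : T1) = x :=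
    (AddCircle.equivIco (1 : ℝ) s).symm_apply_apply x
  have hm := (AddCircle.measurableEquivIco (1 : ℝ) s x).2
  constructor
  · rintro ⟨y, hy, hyx⟩
    have h1 : ((y : ℝ) : T1) =
      ((((AddCircle.measurableEquivIco (1 : ℝ) s x : Set.Ico s (s + 1)) : ℝ)) : T1) := by
      rw [hx]
      exact hyx
    rw [AddCircle.coe_eq_coe_iff_of_mem_Ico (a := s) ⟨hy.1, by linarith [hy.2]⟩ hm] at h1
    rw [← h1]
    exact hy.2
  · intro h
    exact ⟨_, ⟨hm.1, h⟩, hx⟩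

lemma arc_meas (s l : ℝ) (hl : l ≤ 1) : MeasurableSet (arc s l) := by
  have h1 : arc s l = (fun x : T1 =>
      ((AddCircle.measurableEquivIco (1 : ℝ) s x : Set.Ico s (s + 1)) : ℝ)) ⁻¹' (Set.Iio (s + l)) := by
    ext x
    exact mem_arc s l hl x
  rw [h1]
  exact (measurable_subtype_coe.comp (AddCircle.measurableEquivIco (1 : ℝ) s).measurable)
    measurableSet_Iio

lemma vol_arc (s l : ℝ) (hl0 : 0 ≤ l) (hl : l ≤ 1) : (volume : Measure T1).real (arc s l) = l := by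
  have hmp := UnitAddCircle.measurePreserving_mk s
  have h1 : (volume : Measure T1) (arc s l) = ENNReal.ofReal l := by
    rw [← hmp.measure_preimage (arc_meas s l hl).nullMeasurableSet,
      Measure.restrict_apply (hmp.measurable (arc_meas s l hl))]
    apply le_antisymm
    · have hsub : (QuotientAddGroup.mk : ℝ → T1) ⁻¹' (arc s l) ∩ Set.Ioc s (s + 1) ⊆
          Set.Ioo s (s + l) ∪ {s + 1} := by
        rintro x ⟨⟨y, hy, hyx⟩, hx⟩
        by_cases h : x = s + 1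
        · right
          exact h
        · left
          have hlt : x < s + 1 := lt_of_le_of_ne hx.2 h
          have h2 : y = x := (AddCircle.coe_eq_coe_iff_of_mem_Ico (a := s)
            ⟨hy.1, by linarith [hy.2]⟩ ⟨hx.1.le, hlt⟩).1 hyx
          exact ⟨hx.1, h2 ▸ hy.2⟩
      refine (measure_mono hsub).trans ((measure_union_le _ _).trans ?_)
      rw [Real.volume_Ioo, Real.volume_singleton, add_zero, add_sub_cancel_left]
    · have hsub : Set.Ioo s (s + l) ⊆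
          (QuotientAddGroup.mk : ℝ → T1) ⁻¹' (arc s l) ∩ Set.Ioc s (s + 1) := by
        intro x hx
        exact ⟨⟨x, ⟨hx.1.le, hx.2⟩, rfl⟩, hx.1, by linarith [hx.2]⟩
      refine le_trans ?_ (measure_mono hsub)
      rw [Real.volume_Ioo, add_sub_cancel_left]
  rw [Measure.real, h1, ENNReal.toReal_ofReal hl0]

lemma arc_mono (s l s' l' : ℝ) (h1 : s' ≤ s) (h2 : s + l ≤ s' + l') : arc s l ⊆ arc s' l' := by
  rintro x ⟨y, hy, rfl⟩
  exact ⟨y, ⟨by linarith [hy.1], by linarith [hy.2]⟩, rfl⟩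

lemma arc_full : arc 0 1 = Set.univ := by
  ext x
  simp only [Set.mem_univ, iff_true]
  rw [mem_arc 0 1 le_rfl]
  exact (AddCircle.measurableEquivIco (1 : ℝ) 0 x).2.2

/-- grid arcs around an arc -/
lemma grid (N : ℕ) (hN : 1 ≤ N) (s l : ℝ) (hl0 : 0 ≤ l) (hl : l ≤ 1) :
    (∃ i j : Fin (N + 1), arc s l ⊆ arc ((i : ℕ) / N) ((j : ℕ) / N) ∧
      (((j : ℕ) : ℝ) / N) ≤ l + 2 / N) ∧
    ∃ i j : Fin (N + 1), arc ((i : ℕ) / N) ((j : ℕ) / N) ⊆ arc s l ∧
      l - 2 / N ≤ (((j : ℕ) : ℝ) / N) := by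
  have hNr : (0 : ℝ) < N := by exact_mod_cast hN
  have hs : arc s l = arc (Int.fract s) l := by
    have := arc_shift (Int.fract s) l ⌊s⌋
    rw [Int.fract_add_floor] at this
    exact this
  rw [hs]
  have hf0 := Int.fract_nonneg s
  have hf1 := Int.fract_lt_one s
  generalize Int.fract s = t at hf0 hf1
  constructor
  · by_cases hj : ⌈(N : ℝ) * (t + l)⌉₊ - ⌊(N : ℝ) * t⌋₊ ≤ N
    · have hi : ⌊(N : ℝ) * t⌋₊ ≤ N := by
        have h1 : (⌊(N : ℝ) * t⌋₊ : ℝ) ≤ N := by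
          refine (Nat.floor_le (by positivity)).trans ?_
          nlinarith
        exact_mod_cast h1
      have h2 : ⌊(N : ℝ) * t⌋₊ ≤ ⌈(N : ℝ) * (t + l)⌉₊ := by
        have h3 : (⌊(N : ℝ) * t⌋₊ : ℝ) ≤ ⌈(N : ℝ) * (t + l)⌉₊ := by
          refine (Nat.floor_le (by positivity)).trans (le_trans ?_ (Nat.le_ceil _))
          nlinarith
        exact_mod_cast h3
      refine ⟨⟨_, Nat.lt_succ_of_le hi⟩, ⟨_, Nat.lt_succ_of_le hj⟩, ?_, ?_⟩
      · apply arc_mono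
        · simp only
          rw [div_le_iff₀ hNr]
          have := Nat.floor_le (show 0 ≤ (N : ℝ) * t by positivity)
          linarith
        · simp only
          rw [Nat.cast_sub h2, ← add_div, le_div_iff₀ hNr]
          have := Nat.le_ceil ((N : ℝ) * (t + l))
          linarith
      · simp only
        rw [Nat.cast_sub h2, div_le_iff₀ hNr, add_mul, div_mul_cancel₀ _ hNr.ne']
        have h4 := Nat.ceil_lt_add_one (show 0 ≤ (N : ℝ) * (t + l) by positivity)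
        have h5 := Nat.sub_one_lt_floor ((N : ℝ) * t)
        nlinarith
    · refine ⟨⟨0, by omega⟩, ⟨N, by omega⟩, ?_, ?_⟩
      · simp only [Nat.cast_zero, zero_div]
        rw [div_self hNr.ne', arc_full]
        exact Set.subset_univ _
      · simp only
        rw [div_le_iff₀ hNr, add_mul, div_mul_cancel₀ _ hNr.ne']
        have h4 := Nat.ceil_lt_add_one (show 0 ≤ (N : ℝ) * (t + l) by positivity)
        have h5 := Nat.sub_one_lt_floor ((N : ℝ) * t)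
        have h6 : N + ⌊(N : ℝ) * t⌋₊ ≤ ⌈(N : ℝ) * (t + l)⌉₊ := by omega
        have h7 : (N : ℝ) + (⌊(N : ℝ) * t⌋₊ : ℝ) ≤ (⌈(N : ℝ) * (t + l)⌉₊ : ℝ) := by
          exact_mod_cast h6
        nlinarith
  · have hi : ⌈(N : ℝ) * t⌉₊ ≤ N := by
      rw [Nat.ceil_le]
      nlinarith
    have h5 := Nat.le_ceil ((N : ℝ) * t)
    have h4 := Nat.floor_le (show 0 ≤ (N : ℝ) * (t + l) by positivity)
    have hj : ⌊(N : ℝ) * (t + l)⌋₊ - ⌈(N : ℝ) * t⌉₊ ≤ N := by
      rw [Nat.sub_le_iff_le_add]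
      have h6 : (⌊(N : ℝ) * (t + l)⌋₊ : ℝ) ≤ (N : ℝ) + (⌈(N : ℝ) * t⌉₊ : ℝ) := by nlinarith
      exact_mod_cast h6
    refine ⟨⟨_, Nat.lt_succ_of_le hi⟩, ⟨_, Nat.lt_succ_of_le hj⟩, ?_, ?_⟩
    · by_cases hle : ⌈(N : ℝ) * t⌉₊ ≤ ⌊(N : ℝ) * (t + l)⌋₊
      · apply arc_mono
        · simp only
          rw [le_div_iff₀ hNr]
          linarith
        · simp only
          rw [Nat.cast_sub hle, ← add_div, div_le_iff₀ hNr]
          linarith
      · have h0 : ⌊(N : ℝ) * (t + l)⌋₊ - ⌈(N : ℝ) * t⌉₊ = 0 := by omega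
        simp only [h0, Nat.cast_zero, zero_div]
        rintro x ⟨y, hy, rfl⟩
        exfalso
        linarith [hy.1, hy.2]
    · simp only
      rw [le_div_iff₀ hNr, sub_mul, div_mul_cancel₀ _ hNr.ne']
      have h6 := Nat.ceil_lt_add_one (show 0 ≤ (N : ℝ) * t by positivity)
      have h7 := Nat.sub_one_lt_floor ((N : ℝ) * (t + l))
      have h8 : (⌊(N : ℝ) * (t + l)⌋₊ : ℝ) ≤ ((⌊(N : ℝ) * (t + l)⌋₊ - ⌈(N : ℝ) * t⌉₊ : ℕ) : ℝ) +
          (⌈(N : ℝ) * t⌉₊ : ℝ) := by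
        have : ⌊(N : ℝ) * (t + l)⌋₊ ≤ (⌊(N : ℝ) * (t + l)⌋₊ - ⌈(N : ℝ) * t⌉₊) + ⌈(N : ℝ) * t⌉₊ := by
          omega
        exact_mod_cast this
      nlinarith

end Pool.Agent.W32.MM
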